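import Pool.Agent.Lib.helper5.SokScat

namespace Pool.Agent.Results.MP_1116a9_gt.Sokolov

/-- every nonempty subspace has an isolated point -/
def Scattered (K : Type) [TopologicalSpace K] : Prop :=
  ∀ S : Set K, S.Nonempty → ∃ x ∈ S, ∃ U : Set K, IsOpen U ∧ U ∩ S = {x}

/-- the underlying set of `K`, to carry the omega-modification -/
def Om (K : Type) : Type := K

/-- the omega-modification: the topology generated by the `G_δ`-subsets of `K` -/
instance (K : Type) [TopologicalSpace K] : TopologicalSpace (Om K) :=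
  TopologicalSpace.generateFrom {S : Set K | IsGδ S}

/-- Sokolov space; the image of `f` has a countable network -/
def IsSokolov (X : Type) [TopologicalSpace X] : Prop :=
  ∀ F : (n : ℕ) → Set (Fin n → X), (∀ n, IsClosed (F n)) →
    ∃ f : X → X, Continuous f ∧
      (∃ N : Set (Set X), N.Countable ∧ ∀ x ∈ Set.range f, ∀ U : Set X, IsOpen U → x ∈ U →
        ∃ A ∈ N, x ∈ A ∧ A ⊆ Set.range f ∩ U) ∧
      ∀ n : ℕ, ∀ x ∈ F n, (fun i => f (x i)) ∈ F n

theorem result (K : Type) [TopologicalSpace K] [CompactSpace K] [T2Space K] (h : Scattered K) :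
    IsSokolov (Om K) :=
  H5SS.sok h (Om K) (Equiv.refl K) (congrArg TopologicalSpace.generateFrom
    (Set.ext fun _ => isGδ_iff_eq_iInter_nat))

end Pool.Agent.Results.MP_1116a9_gt.Sokolov
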